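import Mathlib

/-!
# The largest square in an odd-dimensional unit cube

For every `n ≥ 1` the largest square contained in the unit cube `[0,1]^(2n+1)` has side
`√((8n+1)/8)`.

Upper bound. Let `x / 2` and `y / 2` be the half-diagonals of the square. Then `x` and `y` are
orthogonal vectors of `[-1,1]^N`, `N = 2n+1`, and `‖x‖² = ‖y‖² = 2 s²`. For fixed `y` the maximum of
the convex function `‖x‖²` over the `x ∈ [-1,1]^N` orthogonal to `y` is attained at a vector with at
most one coordinate different from `±1`; the same for `y` when `x` is fixed. For two such vectors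
the parity of `N` and the orthogonality give `min(‖x‖², ‖y‖²) ≤ N - 3/4`.
-/

set_option autoImplicit false

open Finset

namespace Pool.Agent.Results.MP_befaea_co.LargestSquare

/-- The unit cube `[0,1]^n` in `ℝ^n`. -/
def unitCube (n : ℕ) : Set (EuclideanSpace ℝ (Fin n)) := {x | ∀ i, 0 ≤ x i ∧ x i ≤ 1}

/-- `Q` is an `m`-dimensional cube of edge `s` in `ℝ^n`: the image of `[0,s]^m ⊆ ℝ^m` under a
distance-preserving map `ℝ^m → ℝ^n`. -/
def IsCube (m n : ℕ) (s : ℝ) (Q : Set (EuclideanSpace ℝ (Fin n))) : Prop :=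
  ∃ g : EuclideanSpace ℝ (Fin m) → EuclideanSpace ℝ (Fin n), Isometry g ∧
    Q = g '' {x | ∀ i, 0 ≤ x i ∧ x i ≤ s}

/-- The edges `s > 0` of the `m`-dimensional cubes contained in the unit cube of `ℝ^n`. -/
def inscribedEdges (m n : ℕ) : Set ℝ := {s | 0 < s ∧ ∃ Q, IsCube m n s Q ∧ Q ⊆ unitCube n}

/-- `f(m,n)`: the largest edge of an `m`-dimensional cube contained in the unit cube of `ℝ^n`. -/
noncomputable def f (m n : ℕ) : ℝ := sSup (inscribedEdges m n)

/-! ### the extremal problem for pairs of orthogonal vectors -/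

/-- A vector of `[-1,1]^N` orthogonal to `y` can be replaced, without decreasing its norm, by one
all of whose coordinates but one are `±1`. -/
theorem exists_almost_sign {N : ℕ} (hN : 0 < N) (x y : Fin N → ℝ) (hx : ∀ i, |x i| ≤ 1)
    (hxy : ∑ i, x i * y i = 0) :
    ∃ x' : Fin N → ℝ, (∀ i, |x' i| ≤ 1) ∧ ∑ i, x' i * y i = 0 ∧
      ∑ i, x i ^ 2 ≤ ∑ i, x' i ^ 2 ∧ ∃ j, ∀ i, i ≠ j → |x' i| = 1 := by
  classical
  -- strong induction on the number of coordinates different from `±1`
  obtain ⟨k, hk⟩ : ∃ k, (univ.filter fun i => |x i| ≠ 1).card = k := ⟨_, rfl⟩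
  induction k using Nat.strong_induction_on generalizing x with
  | _ k ih =>
    by_cases hsmall : ∃ j, ∀ i, i ≠ j → |x i| = 1
    · exact ⟨x, hx, hxy, le_rfl, hsmall⟩
    · push Not at hsmall
      obtain ⟨a, -, ha⟩ := hsmall ⟨0, hN⟩
      obtain ⟨b, hba, hb⟩ := hsmall a
      have ha1 : |x a| < 1 := lt_of_le_of_ne (hx a) ha
      have hb1 : |x b| < 1 := lt_of_le_of_ne (hx b) hb
      -- a direction `(u, v)` for the coordinates `a`, `b`, orthogonal to `y`
      obtain ⟨u, v, huv, hu0⟩ : ∃ u v : ℝ, u * y a + v * y b = 0 ∧ (u ≠ 0 ∨ v ≠ 0) := by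
        by_cases h : y a = 0
        · exact ⟨1, 0, by rw [h]; ring, Or.inl one_ne_zero⟩
        · exact ⟨-y b, y a, by ring, Or.inr h⟩
      -- we may assume that moving in this direction does not decrease the norm
      obtain ⟨u, v, huv, hu0, hsg⟩ : ∃ u v : ℝ, u * y a + v * y b = 0 ∧ (u ≠ 0 ∨ v ≠ 0) ∧
          0 ≤ x a * u + x b * v := by
        rcases le_total 0 (x a * u + x b * v) with h | h
        · exact ⟨u, v, huv, hu0, h⟩
        · refine ⟨-u, -v, by linarith, ?_, by linarith⟩
          rcases hu0 with h | h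
          · exact Or.inl (neg_ne_zero.2 h)
          · exact Or.inr (neg_ne_zero.2 h)
      -- the maximal step
      set S : Set ℝ := {t | 0 ≤ t ∧ |x a + t * u| ≤ 1 ∧ |x b + t * v| ≤ 1} with hS
      have hSne : S.Nonempty := ⟨0, le_rfl, by simpa using hx a, by simpa using hx b⟩
      have hSc : IsClosed S := by
        apply IsClosed.inter (isClosed_le continuous_const continuous_id)
        apply IsClosed.inter
        · exact isClosed_le (by fun_prop : Continuous fun t : ℝ => |x a + t * u|) continuous_const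
        · exact isClosed_le (by fun_prop : Continuous fun t : ℝ => |x b + t * v|) continuous_const
      have hSb : BddAbove S := by
        rcases hu0 with h | h
        · refine ⟨2 / |u|, fun t ht => ?_⟩
          rw [le_div_iff₀ (abs_pos.2 h)]
          have h1 := ht.2.1
          have h2 : |t * u| ≤ |x a + t * u| + |x a| := by
            have := abs_sub (x a + t * u) (x a)
            simpa using this
          rw [abs_mul, abs_of_nonneg ht.1] at h2
          linarith
        · refine ⟨2 / |v|, fun t ht => ?_⟩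
          rw [le_div_iff₀ (abs_pos.2 h)]
          have h1 := ht.2.2
          have h2 : |t * v| ≤ |x b + t * v| + |x b| := by
            have := abs_sub (x b + t * v) (x b)
            simpa using this
          rw [abs_mul, abs_of_nonneg ht.1] at h2
          linarith
      set T := sSup S with hT
      have hTS : T ∈ S := hSc.csSup_mem hSne hSb
      obtain ⟨hT0, hTa, hTb⟩ := hTS
      have hext : |x a + T * u| = 1 ∨ |x b + T * v| = 1 := by
        by_contra hcon
        push Not at hcon
        have h1 : |x a + T * u| < 1 := lt_of_le_of_ne hTa hcon.1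
        have h2 : |x b + T * v| < 1 := lt_of_le_of_ne hTb hcon.2
        have h3 : ∀ᶠ t in nhds T, |x a + t * u| < 1 ∧ |x b + t * v| < 1 := by
          apply Filter.Eventually.and
          · exact (by fun_prop : Continuous fun t : ℝ => |x a + t * u|).continuousAt.eventually_lt
              continuousAt_const h1
          · exact (by fun_prop : Continuous fun t : ℝ => |x b + t * v|).continuousAt.eventually_lt
              continuousAt_const h2
        obtain ⟨ε, hε, hball⟩ := Metric.eventually_nhds_iff.1 h3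
        have h4 := hball (y := T + ε / 2) (by
          rw [Real.dist_eq]; simp; rw [abs_of_pos (by positivity)]; linarith)
        have h5 : T + ε / 2 ∈ S := ⟨by linarith, h4.1.le, h4.2.le⟩
        have h6 := le_csSup hSb h5
        rw [← hT] at h6
        linarith
      -- the new vector
      set z : Fin N → ℝ := fun i => if i = a then x a + T * u else if i = b then x b + T * v
        else x i with hz
      have hza : z a = x a + T * u := by simp [hz]
      have hzb : z b = x b + T * v := by simp [hz, hba]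
      have hzo : ∀ i, i ≠ a → i ≠ b → z i = x i := fun i h1 h2 => by simp [hz, h1, h2]
      have hsplit : ∀ F : Fin N → ℝ, ∑ i, F i = F a + F b + ∑ i ∈ (univ.erase a).erase b, F i := by
        intro F
        rw [← Finset.add_sum_erase univ F (mem_univ a),
          ← Finset.add_sum_erase (univ.erase a) F (mem_erase.2 ⟨hba, mem_univ b⟩)]
        ring
      have hz1 : ∀ i, |z i| ≤ 1 := by
        intro i
        by_cases h1 : i = a
        · rw [h1, hza]; exact hTa
        · by_cases h2 : i = b
          · rw [h2, hzb]; exact hTb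
          · rw [hzo i h1 h2]; exact hx i
      have hrest : ∀ G : ℝ → ℝ → ℝ, ∑ i ∈ (univ.erase a).erase b, G (z i) (y i) =
          ∑ i ∈ (univ.erase a).erase b, G (x i) (y i) := by
        intro G
        apply Finset.sum_congr rfl
        intro i hi
        rw [mem_erase, mem_erase] at hi
        rw [hzo i hi.2.1 hi.1]
      have hzy : ∑ i, z i * y i = 0 := by
        rw [hsplit, hrest (fun p q => p * q), hza, hzb]
        rw [hsplit] at hxy
        linear_combination hxy + T * huv
      have hzn : ∑ i, x i ^ 2 ≤ ∑ i, z i ^ 2 := by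
        rw [hsplit, hsplit (fun i => z i ^ 2), hrest (fun p _ => p ^ 2), hza, hzb]
        have : 0 ≤ T * (x a * u + x b * v) := mul_nonneg hT0 hsg
        nlinarith [sq_nonneg (T * u), sq_nonneg (T * v)]
      have hcard : (univ.filter fun i => |z i| ≠ 1).card < k := by
        rw [← hk]
        apply Finset.card_lt_card
        rw [Finset.ssubset_iff_of_subset]
        · rcases hext with h | h
          · refine ⟨a, by simpa using ha, ?_⟩
            simp [hza, h]
          · refine ⟨b, by simpa using hb, ?_⟩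
            simp [hzb, h]
        · intro i hi
          simp only [mem_filter, mem_univ, true_and] at hi ⊢
          by_cases h1 : i = a
          · rw [h1]; exact ha
          · by_cases h2 : i = b
            · rw [h2]; exact hb
            · rwa [hzo i h1 h2] at hi
      obtain ⟨x', h1, h2, h3, h4⟩ := ih _ hcard z hz1 hzy rfl
      exact ⟨x', h1, h2, hzn.trans h3, h4⟩

/-- A sum of `±1`'s is an integer with the parity of the number of terms. -/
theorem sum_sign {N : ℕ} (s : Finset (Fin N)) (F : Fin N → ℝ) (hF : ∀ i ∈ s, |F i| = 1) :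
    ∃ m : ℤ, ∑ i ∈ s, F i = m ∧ (2 : ℤ) ∣ m - s.card := by
  classical
  induction s using Finset.induction_on with
  | empty => exact ⟨0, by simp, by simp⟩
  | insert a s ha ih =>
    obtain ⟨m, hm, hd⟩ := ih fun i hi => hF i (mem_insert_of_mem hi)
    rw [sum_insert ha, card_insert_of_notMem ha, hm]
    rcases (abs_eq (zero_le_one (α := ℝ))).1 (hF a (mem_insert_self a s)) with h | h
    · refine ⟨1 + m, by rw [h]; push_cast; ring, ?_⟩
      push_cast
      omega
    · refine ⟨-1 + m, by rw [h]; push_cast; ring, ?_⟩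
      push_cast
      omega

theorem sum_sq_almost {N : ℕ} (x : Fin N → ℝ) (j : Fin N) (hj : ∀ i, i ≠ j → |x i| = 1) :
    ∑ i, x i ^ 2 = N - 1 + x j ^ 2 := by
  classical
  rw [← Finset.add_sum_erase univ _ (mem_univ j)]
  have h1 : ∑ i ∈ univ.erase j, x i ^ 2 = ∑ i ∈ univ.erase j, (1 : ℝ) := by
    apply Finset.sum_congr rfl
    intro i hi
    rw [← sq_abs, hj i (ne_of_mem_erase hi), one_pow]
  rw [h1, sum_const, card_erase_of_mem (mem_univ j), card_univ, Fintype.card_fin, nsmul_eq_mul,
    mul_one, Nat.cast_sub (by have := j.pos; omega)]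
  push_cast
  ring

/-- Two orthogonal vectors of `[-1,1]^N`, `N` odd, cannot both have squared norm larger than
`N - 3/4`. -/
theorem pair_bound {N : ℕ} (hN : Odd N) (x y : Fin N → ℝ) (hx : ∀ i, |x i| ≤ 1)
    (hy : ∀ i, |y i| ≤ 1) (hxy : ∑ i, x i * y i = 0) (t : ℝ) (htx : t ≤ ∑ i, x i ^ 2)
    (hty : t ≤ ∑ i, y i ^ 2) : t ≤ N - 3 / 4 := by
  classical
  have hN0 : 0 < N := hN.pos
  obtain ⟨x, hx, hxy, hxn, j, hj⟩ := exists_almost_sign hN0 x y hx hxy
  have htx := htx.trans hxn
  clear hxn
  have hyx : ∑ i, y i * x i = 0 := by rw [← hxy]; exact sum_congr rfl fun i _ => mul_comm _ _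
  obtain ⟨y, hy, hyx, hyn, l, hl⟩ := exists_almost_sign hN0 y x hy hyx
  have hty := hty.trans hyn
  clear hyn hxy
  rw [sum_sq_almost x j hj] at htx
  rw [sum_sq_almost y l hl] at hty
  have hodd : ∃ r : ℤ, (N : ℤ) = 2 * r + 1 := by
    obtain ⟨r, hr⟩ := hN
    exact ⟨r, by rw [hr]; push_cast; ring⟩
  obtain ⟨r, hr⟩ := hodd
  by_cases hjl : j = l
  · subst hjl
    rw [← Finset.add_sum_erase univ _ (mem_univ j)] at hyx
    obtain ⟨m, hm, hd⟩ := sum_sign (univ.erase j) (fun i => y i * x i) (fun i hi => by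
      rw [abs_mul, hl i (ne_of_mem_erase hi), hj i (ne_of_mem_erase hi), one_mul])
    rw [hm] at hyx
    rw [card_erase_of_mem (mem_univ j), card_univ, Fintype.card_fin,
      Nat.cast_sub (by omega), hr] at hd
    have h1 : |y j * x j| ≤ 1 := by
      rw [abs_mul]
      exact mul_le_one₀ (hy j) (abs_nonneg _) (hx j)
    have h2 : (m : ℝ) ≤ 1 := by have := (abs_le.1 h1).1; linarith
    have h3 : (-1 : ℝ) ≤ m := by have := (abs_le.1 h1).2; linarith
    have h4 : m ≤ 1 := by exact_mod_cast h2
    have h5 : -1 ≤ m := by exact_mod_cast h3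
    have h6 : m = 0 := by omega
    rw [h6] at hyx
    have h7 : y j * x j = 0 := by simpa using hyx
    rcases mul_eq_zero.1 h7 with h | h
    · rw [h] at hty; linarith
    · rw [h] at htx; linarith
  · rw [← Finset.add_sum_erase univ _ (mem_univ j),
      ← Finset.add_sum_erase (univ.erase j) _ (mem_erase.2 ⟨Ne.symm hjl, mem_univ l⟩)] at hyx
    obtain ⟨m, hm, hd⟩ := sum_sign ((univ.erase j).erase l) (fun i => y i * x i) (fun i hi => by
      rw [mem_erase, mem_erase] at hi
      rw [abs_mul, hl i hi.1, hj i hi.2.1, one_mul])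
    rw [hm] at hyx
    have hcard : (((univ.erase j).erase l).card : ℤ) = 2 * r - 1 := by
      rw [card_erase_of_mem (mem_erase.2 ⟨Ne.symm hjl, mem_univ l⟩),
        card_erase_of_mem (mem_univ j), card_univ, Fintype.card_fin]
      have : 2 ≤ N := by
        have h1 := j.isLt
        have h2 := l.isLt
        have h3 : (j : ℕ) ≠ l := fun h => hjl (Fin.ext h)
        omega
      omega
    rw [hcard] at hd
    have hyj : |y j * x j| = |x j| := by rw [abs_mul, hl j hjl, one_mul]
    have hxl : |y l * x l| = |y l| := by rw [abs_mul, hj l (Ne.symm hjl), mul_one]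
    have h1 : (m : ℝ) ≠ 0 := by
      intro h
      have : m = 0 := by exact_mod_cast h
      omega
    have h2 : (1 : ℝ) ≤ |(m : ℝ)| := by
      rw [← Int.cast_abs]
      exact_mod_cast Int.one_le_abs (by exact_mod_cast h1)
    have h3 : |(m : ℝ)| ≤ |x j| + |y l| := by
      have : (m : ℝ) = -(y j * x j + y l * x l) := by linarith
      rw [this, abs_neg]
      exact (abs_add_le _ _).trans (by rw [hyj, hxl])
    have h4 : |x j| ≤ 1 := hx j
    have h5 : |y l| ≤ 1 := hy l
    -- `m` is odd and `|m| ≤ 2`, so `|m| = 1`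
    have h6 : |m| = 1 := by
      have h7 : |(m : ℝ)| ≤ 2 := by linarith
      rw [← Int.cast_abs] at h7
      have h8 : |m| ≤ 2 := by exact_mod_cast h7
      have h9 := abs_le.1 h8
      rcases abs_cases m with h | h <;> omega
    have h7 : |y j * x j + y l * x l| = 1 := by
      have : y j * x j + y l * x l = -(m : ℝ) := by linarith
      rw [this, abs_neg, ← Int.cast_abs, h6, Int.cast_one]
    -- the smaller one of `|x j|`, `|y l|` is at most `1/2`
    have h8 : |x j| ≤ 1 / 2 ∨ |y l| ≤ 1 / 2 := by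
      by_contra hcon
      push Not at hcon
      rcases abs_cases (y j * x j) with h | h <;> rcases abs_cases (y l * x l) with h' | h' <;>
        rcases abs_cases (y j * x j + y l * x l) with h'' | h'' <;>
        linarith [hcon.1, hcon.2, h.1, h'.1, h''.1]
    rcases h8 with h | h
    · have : x j ^ 2 ≤ 1 / 4 := by
        rw [← sq_abs]
        nlinarith [abs_nonneg (x j)]
      linarith
    · have : y l ^ 2 ≤ 1 / 4 := by
        rw [← sq_abs]
        nlinarith [abs_nonneg (y l)]
      linarith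

/-! ### the upper bound -/

theorem upper {N : ℕ} (hN : Odd N) (s : ℝ) (hs : s ∈ inscribedEdges 2 N) :
    2 * s ^ 2 ≤ N - 3 / 4 := by
  obtain ⟨hs0, Q, ⟨g, hg, rfl⟩, hQ⟩ := hs
  set L := hg.affineIsometryOfStrictConvexSpace with hL
  have hLg : ∀ x, L x = g x := fun x => rfl
  -- the corners of the square
  set o : EuclideanSpace ℝ (Fin 2) := !₂[0, 0] with ho
  set a : EuclideanSpace ℝ (Fin 2) := !₂[s, 0] with ha
  set b : EuclideanSpace ℝ (Fin 2) := !₂[0, s] with hb
  set c : EuclideanSpace ℝ (Fin 2) := !₂[s, s] with hc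
  have hmem : ∀ p : EuclideanSpace ℝ (Fin 2), (∀ i, 0 ≤ p i ∧ p i ≤ s) →
      ∀ i, 0 ≤ g p i ∧ g p i ≤ 1 := fun p hp => hQ ⟨p, hp, rfl⟩
  have hgo := hmem o (by intro i; fin_cases i <;> simp [ho, hs0.le])
  have hga := hmem a (by intro i; fin_cases i <;> simp [ha, hs0.le])
  have hgb := hmem b (by intro i; fin_cases i <;> simp [hb, hs0.le])
  have hgc := hmem c (by intro i; fin_cases i <;> simp [hc, hs0.le])
  -- the map is affine
  have hsub : ∀ p q, g p - g q = L.linearIsometry (p - q) := by
    intro p q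
    rw [← hLg, ← hLg]
    have := L.map_vsub p q
    simpa [vsub_eq_sub] using this.symm
  have hn1 : ‖g c - g o‖ ^ 2 = 2 * s ^ 2 := by
    rw [hsub, LinearIsometry.norm_map, EuclideanSpace.norm_sq_eq]
    simp [hc, ho, Fin.sum_univ_two]
    ring
  have hn2 : ‖g a - g b‖ ^ 2 = 2 * s ^ 2 := by
    rw [hsub, LinearIsometry.norm_map, EuclideanSpace.norm_sq_eq]
    simp [ha, hb, Fin.sum_univ_two]
    ring
  have hin : inner ℝ (g c - g o) (g a - g b) = 0 := by
    rw [hsub, hsub, LinearIsometry.inner_map_map]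
    simp [hc, ho, ha, hb, Fin.sum_univ_two, PiLp.inner_apply]
  refine pair_bound hN (fun i => g c i - g o i) (fun i => g a i - g b i) (fun i => ?_)
    (fun i => ?_) ?_ (2 * s ^ 2) ?_ ?_
  · rw [abs_le]
    constructor <;> linarith [(hgc i).1, (hgc i).2, (hgo i).1, (hgo i).2]
  · rw [abs_le]
    constructor <;> linarith [(hga i).1, (hga i).2, (hgb i).1, (hgb i).2]
  · rw [PiLp.inner_apply] at hin
    simp only [PiLp.sub_apply, RCLike.inner_apply, conj_trivial] at hin
    rw [← hin]
    exact sum_congr rfl fun i _ => mul_comm _ _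
  · rw [← hn1, EuclideanSpace.norm_sq_eq]
    simp
  · rw [← hn2, EuclideanSpace.norm_sq_eq]
    simp

/-! ### the construction -/

/-- the first diagonal -/
noncomputable def dx (N : ℕ) (i : Fin N) : ℝ := if (i : ℕ) = 2 then 1 / 2 else 1

/-- the second diagonal -/
noncomputable def dy (N : ℕ) (i : Fin N) : ℝ :=
  if (i : ℕ) = 0 then -1 / 2 else if (i : ℕ) = 1 then 1 else if (i : ℕ) = 2 then -1
  else (-1) ^ (i : ℕ)

theorem sum_dx (n : ℕ) (hn : 1 ≤ n) : ∑ i : Fin (2 * n + 1), dx _ i ^ 2 = 2 * n + 1 / 4 := by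
  obtain ⟨m, rfl⟩ : ∃ m, n = m + 1 := ⟨n - 1, by omega⟩
  simp only [dx]
  rw [Fin.sum_univ_eq_sum_range (fun i => (if i = 2 then (1 / 2 : ℝ) else 1) ^ 2)]
  rw [show 2 * (m + 1) + 1 = 2 * m + 3 by ring]
  induction m with
  | zero => norm_num [Finset.sum_range_succ]
  | succ k ih =>
    rw [show 2 * (k + 1) + 3 = 2 * k + 3 + 1 + 1 by ring, Finset.sum_range_succ,
      Finset.sum_range_succ, ih (by omega)]
    rw [if_neg (by omega), if_neg (by omega)]
    push_cast
    ring

theorem sum_dy (n : ℕ) (hn : 1 ≤ n) : ∑ i : Fin (2 * n + 1), dy _ i ^ 2 = 2 * n + 1 / 4 := by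
  obtain ⟨m, rfl⟩ : ∃ m, n = m + 1 := ⟨n - 1, by omega⟩
  simp only [dy]
  rw [Fin.sum_univ_eq_sum_range (fun i => (if i = 0 then (-1 / 2 : ℝ) else if i = 1 then 1
    else if i = 2 then -1 else (-1) ^ i) ^ 2)]
  rw [show 2 * (m + 1) + 1 = 2 * m + 3 by ring]
  induction m with
  | zero => norm_num [Finset.sum_range_succ]
  | succ k ih =>
    rw [show 2 * (k + 1) + 3 = 2 * k + 3 + 1 + 1 by ring, Finset.sum_range_succ,
      Finset.sum_range_succ, ih (by omega)]
    rw [if_neg (by omega), if_neg (by omega), if_neg (by omega), if_neg (by omega),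
      if_neg (by omega), if_neg (by omega), ← pow_mul, ← pow_mul, mul_comm (2 * k + 3) 2,
      mul_comm (2 * k + 3 + 1) 2, pow_mul, pow_mul]
    norm_num
    ring

theorem sum_dxdy (n : ℕ) (hn : 1 ≤ n) : ∑ i : Fin (2 * n + 1), dx _ i * dy _ i = 0 := by
  obtain ⟨m, rfl⟩ : ∃ m, n = m + 1 := ⟨n - 1, by omega⟩
  simp only [dx, dy]
  rw [Fin.sum_univ_eq_sum_range (fun i => (if i = 2 then (1 / 2 : ℝ) else 1) *
    (if i = 0 then (-1 / 2 : ℝ) else if i = 1 then 1 else if i = 2 then -1 else (-1) ^ i))]
  rw [show 2 * (m + 1) + 1 = 2 * m + 3 by ring]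
  induction m with
  | zero => norm_num [Finset.sum_range_succ]
  | succ k ih =>
    rw [show 2 * (k + 1) + 3 = 2 * k + 3 + 1 + 1 by ring, Finset.sum_range_succ,
      Finset.sum_range_succ, ih (by omega)]
    rw [if_neg (by omega), if_neg (by omega), if_neg (by omega), if_neg (by omega),
      if_neg (by omega), if_neg (by omega), if_neg (by omega), if_neg (by omega), pow_succ]
    ring

theorem abs_dx (N : ℕ) (i : Fin N) : |dx N i| ≤ 1 := by
  unfold dx
  split_ifs <;> norm_num

theorem abs_dy (N : ℕ) (i : Fin N) : |dy N i| ≤ 1 := by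
  unfold dy
  split_ifs
  · rw [abs_le]; constructor <;> norm_num
  · norm_num
  · norm_num
  · rw [abs_pow]; norm_num

theorem attained (n : ℕ) (hn : 1 ≤ n) (s : ℝ) (hs0 : 0 < s) (hs : 2 * s ^ 2 = 2 * n + 1 / 4) :
    s ∈ inscribedEdges 2 (2 * n + 1) := by
  set N := 2 * n + 1 with hN
  -- the centre and the two edge vectors
  let g : EuclideanSpace ℝ (Fin 2) → EuclideanSpace ℝ (Fin N) := fun z =>
    WithLp.toLp 2 fun i => 1 / 2 + ((z 0 + z 1 - s) * (dx N i / 2) + (z 0 - z 1) * (dy N i / 2)) / s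
  refine ⟨hs0, g '' {x | ∀ i, 0 ≤ x i ∧ x i ≤ s}, ⟨g, ?_, rfl⟩, ?_⟩
  · apply Isometry.of_dist_eq
    intro z w
    rw [EuclideanSpace.dist_eq, EuclideanSpace.dist_eq]
    congr 1
    have hkey : ∀ i, dist (g z i) (g w i) ^ 2 =
        ((z 0 - w 0) + (z 1 - w 1)) ^ 2 / (4 * s ^ 2) * dx N i ^ 2 +
        ((z 0 - w 0) - (z 1 - w 1)) ^ 2 / (4 * s ^ 2) * dy N i ^ 2 +
        ((z 0 - w 0) ^ 2 - (z 1 - w 1) ^ 2) / (2 * s ^ 2) * (dx N i * dy N i) := by
      intro i
      rw [Real.dist_eq, sq_abs]
      simp only [g]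
      field_simp
      ring
    rw [sum_congr rfl fun i _ => hkey i, sum_add_distrib, sum_add_distrib, ← mul_sum, ← mul_sum,
      ← mul_sum, sum_dx n hn, sum_dy n hn, sum_dxdy n hn, ← hs, Fin.sum_univ_two, Real.dist_eq,
      Real.dist_eq, sq_abs, sq_abs]
    field_simp
    ring
  · rintro _ ⟨z, hz, rfl⟩ i
    have h0 := hz 0
    have h1 := hz 1
    have hx := abs_le.1 (abs_dx N i)
    have hy := abs_le.1 (abs_dy N i)
    have key : |(z 0 + z 1 - s) * (dx N i / 2) + (z 0 - z 1) * (dy N i / 2)| ≤ s / 2 := by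
      have e1 : |(z 0 + z 1 - s) * (dx N i / 2)| ≤ |z 0 + z 1 - s| * (1 / 2) := by
        rw [abs_mul, abs_div]
        apply mul_le_mul_of_nonneg_left _ (abs_nonneg _)
        rw [abs_of_pos (two_pos : (0 : ℝ) < 2)]
        linarith [abs_dx N i]
      have e2 : |(z 0 - z 1) * (dy N i / 2)| ≤ |z 0 - z 1| * (1 / 2) := by
        rw [abs_mul, abs_div]
        apply mul_le_mul_of_nonneg_left _ (abs_nonneg _)
        rw [abs_of_pos (two_pos : (0 : ℝ) < 2)]
        linarith [abs_dy N i]
      have e3 : |z 0 + z 1 - s| + |z 0 - z 1| ≤ s := by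
        rcases abs_cases (z 0 + z 1 - s) with h | h <;> rcases abs_cases (z 0 - z 1) with h' | h' <;>
          linarith [h.1, h'.1, h0.1, h0.2, h1.1, h1.2]
      linarith [abs_add_le ((z 0 + z 1 - s) * (dx N i / 2)) ((z 0 - z 1) * (dy N i / 2))]
    have key2 := abs_le.1 key
    have e4 : -(1 / 2) ≤ ((z 0 + z 1 - s) * (dx N i / 2) + (z 0 - z 1) * (dy N i / 2)) / s := by
      rw [le_div_iff₀ hs0]; linarith [key2.1]
    have e5 : ((z 0 + z 1 - s) * (dx N i / 2) + (z 0 - z 1) * (dy N i / 2)) / s ≤ 1 / 2 := by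
      rw [div_le_iff₀ hs0]; linarith [key2.2]
    constructor
    · show (0 : ℝ) ≤ 1 / 2 + _
      linarith
    · show 1 / 2 + _ ≤ (1 : ℝ)
      linarith

/-- **The largest square in the unit cube of dimension `2n+1`.** For every `n ≥ 1`,
`f(2,2n+1) = √((8n+1)/8)`, and the maximum is attained. -/
theorem result (n : ℕ) (hn : 1 ≤ n) :
    f 2 (2 * n + 1) = Real.sqrt ((8 * n + 1) / 8) ∧
      IsGreatest (inscribedEdges 2 (2 * n + 1)) (Real.sqrt ((8 * n + 1) / 8)) := by
  have h0 : (0 : ℝ) < (8 * n + 1) / 8 := by positivity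
  have hgr : IsGreatest (inscribedEdges 2 (2 * n + 1)) (Real.sqrt ((8 * n + 1) / 8)) := by
    constructor
    · apply attained n hn _ (Real.sqrt_pos.2 h0)
      rw [Real.sq_sqrt h0.le]
      ring
    · intro s hs
      have h1 := upper (N := 2 * n + 1) ⟨n, rfl⟩ s hs
      apply Real.le_sqrt_of_sq_le
      push_cast at h1
      linarith
  exact ⟨hgr.csSup_eq, hgr⟩

end Pool.Agent.Results.MP_befaea_co.LargestSquare
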